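import Mathlib
import Pool.Agent.R864.Surf4

/-!
MP_eab3e1_ag, Q1: a surface of type B for which `HD^*(Y × 𝔸¹)` is strictly larger than
`K[Y] ⊕ ⨁_{i>0} I uⁱ`.  The surface is `x² (x-1) y = z² + x (x-1)`.
-/

set_option autoImplicit false

open Polynomial

namespace Pool.Agent.Results.MP_eab3e1_ag.TypeBCounterexample

open Pool.Agent.R864.Cyl Pool.Agent.R864.Surf

universe u

/-- A variety with coordinate ring `A` is rigid if `0` is its only locally nilpotent
derivation. -/
def Rigid (K : Type u) [Field K] (A : Type u) [CommRing A] [Algebra K A] : Prop :=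
  ∀ D : Derivation K A A, IsLND D → D = 0

/-- A variety with coordinate ring `A` is of type B if it is not rigid and
`HD^*(A[u]) ≠ A[u]`. -/
def TypeB (K : Type u) [Field K] (A : Type u) [CommRing A] [Algebra K A] : Prop :=
  ¬ Rigid K A ∧ HDstar K A[X] ≠ ⊤

theorem HD_ne_top' {K : Type u} [Field K] [CharZero K] {p q p1 q1 : K[X]}
    (hp : p = (X - 1) * p1) (hq : q = (X - 1) * q1) (h1 : p1.eval 1 = q1.eval 1)
    (h2 : p1.eval 1 ≠ 0) : HDstar K (S p q)[X] ≠ ⊤ := by
  subst hp hq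
  exact HD_ne_top h1 h2

/-- For every field `K` of characteristic `0` there is a finitely generated `K`-domain `A`
(namely `K[x,y,z]/(x² (x-1) y - z² - x (x-1))`) of type B such that `HD^*(A[u])` is not
`A ⊕ ⨁_{i>0} I uⁱ`, where `I` is the ideal generated by the images of all locally nilpotent
derivations of `A`: it contains some `a u` with `a ∉ I`. -/
theorem result (K : Type u) [Field K] [CharZero K] :
    ∃ (A : Type u) (_ : CommRing A) (_ : IsDomain A) (_ : Algebra K A)
      (_ : Algebra.FiniteType K A),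
      TypeB K A ∧
      (HDstar K A[X] : Set A[X]) ≠ {f : A[X] | ∀ i : ℕ, 0 < i → f.coeff i ∈ imageIdeal K A} ∧
      ∃ a : A, C a * X ∈ HDstar K A[X] ∧ a ∉ imageIdeal K A := by
  have hm : ((X : K[X]) ^ 2 * (X - 1)).Monic := by
    apply (monic_X_pow 2).mul
    have := monic_X_sub_C (1 : K)
    rwa [C_1] at this
  have hdeg : 2 ≤ ((X : K[X]) ^ 2 * (X - 1)).natDegree := by
    have h1 : (X - 1 : K[X]) = X - C 1 := by rw [C_1]
    rw [h1, natDegree_mul (pow_ne_zero 2 X_ne_zero) (X_sub_C_ne_zero 1), natDegree_X_pow]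
    omega
  have hpt : aeval (0 : K) ((X : K[X]) ^ 2 * (X - 1)) * 0 =
      0 ^ 2 + aeval (0 : K) ((X : K[X]) * (X - 1)) := by
    simp
  let π : S ((X : K[X]) ^ 2 * (X - 1)) (X * (X - 1)) →ₐ[K] K := lift _ _ 0 0 0 hpt
  have hle : imageIdeal K (S ((X : K[X]) ^ 2 * (X - 1)) (X * (X - 1))) ≤ RingHom.ker π := by
    refine (imageIdeal_le hm hdeg).trans ?_
    rw [Ideal.span_le]
    rintro b hb
    rw [SetLike.mem_coe, RingHom.mem_ker]
    rcases hb with rfl | rfl
    · rw [← aeval_algHom_apply]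
      simp [π]
    · simp [π]
  have hex : ∃ a : S ((X : K[X]) ^ 2 * (X - 1)) (X * (X - 1)),
      C a * X ∈ HDstar K (S ((X : K[X]) ^ 2 * (X - 1)) (X * (X - 1)))[X] ∧
      a ∉ imageIdeal K (S ((X : K[X]) ^ 2 * (X - 1)) (X * (X - 1))) := by
    refine ⟨aeval (x _ _) (X - 1 : K[X]) - aeval (x _ _) (X : K[X]) *
      aeval (x _ _) (X - 1 : K[X]) * y _ _, ?_, ?_⟩
    · have h1 := cu_mem (X : K[X]) (X - 1) (X - 1) hm
      convert h1 using 1
      unfold Cv Av Bv Yv
      simp only [map_sub, map_mul]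
    · intro h
      have h1 := hle h
      rw [RingHom.mem_ker] at h1
      simp [π, ← aeval_algHom_apply] at h1
  refine ⟨S (X ^ 2 * (X - 1)) (X * (X - 1)), inferInstance, isDomain hm, inferInstance,
    inferInstance, ⟨?_, ?_⟩, ?_, hex⟩
  · intro hr
    exact del_ne_zero _ _ hm (hr (del _ _) (del_isLND _ _))
  · apply HD_ne_top' (p1 := X ^ 2) (q1 := X)
    · ring
    · ring
    · simp
    · simp
  · intro heq
    obtain ⟨a, ha, hna⟩ := hex
    have h1 : C a * X ∈ (HDstar K (S ((X : K[X]) ^ 2 * (X - 1)) (X * (X - 1)))[X] :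
      Set (S ((X : K[X]) ^ 2 * (X - 1)) (X * (X - 1)))[X]) := ha
    rw [heq] at h1
    apply hna
    have h2 := h1 1 one_pos
    rwa [coeff_C_mul, coeff_X_one, mul_one] at h2

end Pool.Agent.Results.MP_eab3e1_ag.TypeBCounterexample
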